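import Mathlib
import Pool.Agent.Lib.helper29.Moran2

set_option autoImplicit false

namespace Pool.Agent.Results.MP_c7f57c_an.NullMultiplicity

open MeasureTheory Pool.Agent.Lib.H29.Moran

/-- There is a Moran set of Lebesgue measure zero that is not a set of uniqueness. -/
theorem result : ∃ (M : ℕ → ℕ) (D : ℕ → Finset ℕ), (∀ n, 2 ≤ M n) ∧
    (∀ n, (D n).Nonempty ∧ D n ⊆ Finset.range (M n)) ∧
    volume (moran M D) = 0 ∧ ¬ IsUniqueness (moran M D) := by
  refine ⟨MM, DD, fun n => by unfold MM; omega, fun n => ⟨?_, fun d hd => ?_⟩, K_null, not_unique⟩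
  · unfold DD
    split_ifs <;> simp
  · have := DD_le hd
    rw [Finset.mem_range, MM]
    omega

end Pool.Agent.Results.MP_c7f57c_an.NullMultiplicity
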